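import Pool.Agent.N443.Core.Bits

/-! Set functions on seven positions and permutations of the positions. -/

set_option autoImplicit false
set_option maxRecDepth 100000
open Finset Equiv

namespace Pool.Agent.N443

/-- position permutations act on set functions -/
def act (σ : Perm (Fin 7)) (g : Finset (Fin 7) → ℕ) : Finset (Fin 7) → ℕ := fun Q => g (Q.image σ)

theorem act_one (g : Finset (Fin 7) → ℕ) : act 1 g = g := by
  funext Q; simp [act]

theorem act_act (σ τ : Perm (Fin 7)) (g : Finset (Fin 7) → ℕ) : act σ (act τ g) = act (τ * σ) g := by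
  funext Q
  unfold act
  rw [image_image]
  rfl

/-- a class of set functions closed under the action -/
def Cl (P : (Finset (Fin 7) → ℕ) → Prop) : Prop := ∀ g, P g → ∀ σ, P (act σ g)

variable {P : (Finset (Fin 7) → ℕ) → Prop} {G : (Finset (Fin 7) → ℕ) → ℕ}

/-- the permutations which do not change `G` -/
def Kp (P : (Finset (Fin 7) → ℕ) → Prop) (G : (Finset (Fin 7) → ℕ) → ℕ) (σ : Perm (Fin 7)) : Prop :=
  ∀ g, P g → G (act σ g) = G g

theorem Kp_mul (hP : Cl P) {σ τ : Perm (Fin 7)} (h1 : Kp P G σ) (h2 : Kp P G τ) : Kp P G (σ * τ) := by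
  intro g hg
  rw [← act_act, h2 _ (hP g hg σ), h1 g hg]

theorem Kp_one : Kp P G 1 := fun g _ => by rw [act_one]

theorem Kp_conj (hP : Cl P) {a b c : Fin 7} (hbc : c ≠ b) (hac : c ≠ a) (h1 : Kp P G (swap a b))
    (h2 : Kp P G (swap b c)) : Kp P G (swap a c) := by
  have e : swap b a * swap c b * swap b a = swap a c := swap_mul_swap_mul_swap hbc hac
  rw [← e, swap_comm b a, swap_comm c b]
  exact Kp_mul hP (Kp_mul hP h1 h2) h1

theorem Kp_swaps (hP : Cl P) (h0 : Kp P G (swap 0 1)) (h1 : Kp P G (swap 1 2)) (h2 : Kp P G (swap 2 3))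
    (h3 : Kp P G (swap 3 4)) (i j : Fin 7) (hi : i.val < 5) (hj : j.val < 5) : Kp P G (swap i j) := by
  have a02 : Kp P G (swap 0 2) := Kp_conj hP (by decide) (by decide) h0 h1
  have a13 : Kp P G (swap 1 3) := Kp_conj hP (by decide) (by decide) h1 h2
  have a24 : Kp P G (swap 2 4) := Kp_conj hP (by decide) (by decide) h2 h3
  have a03 : Kp P G (swap 0 3) := Kp_conj hP (by decide) (by decide) a02 h2
  have a14 : Kp P G (swap 1 4) := Kp_conj hP (by decide) (by decide) a13 h3
  have a04 : Kp P G (swap 0 4) := Kp_conj hP (by decide) (by decide) a03 h3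
  have key : ∀ i j : Fin 7, i < j → j.val < 5 → Kp P G (swap i j) := by
    intro i j hij hj
    fin_cases j <;> simp only [Fin.reduceFinMk] at hij hj ⊢ <;> fin_cases i <;> first
      | exact h0 | exact h1 | exact h2 | exact h3 | exact a02 | exact a13 | exact a24 | exact a03 | exact a14 | exact a04
      | (exfalso; revert hij; decide) | (exfalso; revert hj; decide)
  rcases lt_trichotomy i j with h | h | h
  · exact key i j h hj
  · rw [h, swap_self]; exact Kp_one
  · rw [swap_comm]; exact key j i h hi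

theorem Kp_step (hP : Cl P) (hs : ∀ i j : Fin 7, i.val < 5 → j.val < 5 → Kp P G (swap i j)) (k : ℕ) (hk : k < 5)
    (ih : ∀ τ : Perm (Fin 7), (∀ j : Fin 7, j.val < k + 1 → τ j = j) → (∀ j : Fin 7, j.val < 5 → (τ j).val < 5) → Kp P G τ)
    (σ : Perm (Fin 7)) (h1 : ∀ j : Fin 7, j.val < k → σ j = j) (h2 : ∀ j : Fin 7, j.val < 5 → (σ j).val < 5) : Kp P G σ := by
  set a : Fin 7 := ⟨k, by omega⟩ with ha
  have hsa : (σ a).val < 5 := h2 a hk
  have hne : ∀ j : Fin 7, j.val < k → σ j ≠ σ a ∧ σ j ≠ a := by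
    intro j hj
    refine ⟨fun h => ?_, fun h => ?_⟩
    · have := σ.injective h
      rw [this] at hj
      exact absurd hj (lt_irrefl _)
    · rw [h1 j hj] at h
      rw [h] at hj
      exact absurd hj (lt_irrefl _)
  have h3 : Kp P G (swap a (σ a) * σ) := by
    refine ih _ ?_ ?_
    · intro j hj
      rcases Nat.lt_succ_iff_lt_or_eq.mp hj with hj | hj
      · obtain ⟨n1, n2⟩ := hne j hj
        rw [Perm.mul_apply, swap_apply_of_ne_of_ne n2 n1, h1 j hj]
      · have : j = a := Fin.ext hj
        rw [this, Perm.mul_apply, swap_apply_right]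
    · intro j hj
      rw [Perm.mul_apply]
      by_cases e1 : σ j = a
      · rw [e1, swap_apply_left]; exact hsa
      · by_cases e2 : σ j = σ a
        · rw [e2, swap_apply_right]; exact hk
        · rw [swap_apply_of_ne_of_ne e1 e2]; exact h2 j hj
  have e : σ = swap a (σ a) * (swap a (σ a) * σ) := by
    rw [← mul_assoc, swap_mul_self, one_mul]
  rw [e]
  exact Kp_mul hP (hs _ _ hk hsa) h3

theorem Kp_fix (h5 : Kp P G (swap 5 6)) (τ : Perm (Fin 7)) (h : ∀ j : Fin 7, j.val < 5 → τ j = j) : Kp P G τ := by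
  have h56 : ∀ j : Fin 7, 5 ≤ j.val → 5 ≤ (τ j).val := by
    intro j hj
    by_contra hlt
    have h1 := h (τ j) (by omega)
    have := τ.injective h1
    rw [this] at hlt
    omega
  have hc : ∀ x : Fin 7, 5 ≤ x.val → x = 5 ∨ x = 6 := by decide
  rcases hc _ (h56 5 (by decide)) with e5 | e5
  · have e6 : τ 6 = 6 := by
      rcases hc _ (h56 6 (by decide)) with e | e
      · exact absurd (τ.injective (e.trans e5.symm)) (by decide)
      · exact e
    have : τ = 1 := by
      ext j
      by_cases hj : j.val < 5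
      · rw [h j hj]; rfl
      · rcases hc j (by omega) with rfl | rfl
        · rw [e5]; rfl
        · rw [e6]; rfl
    rw [this]; exact Kp_one
  · have e6 : τ 6 = 5 := by
      rcases hc _ (h56 6 (by decide)) with e | e
      · exact e
      · exact absurd (τ.injective (e.trans e5.symm)) (by decide)
    have : τ = swap 5 6 := by
      ext j
      by_cases hj : j.val < 5
      · rw [h j hj, swap_apply_of_ne_of_ne]
        · rintro rfl; exact absurd hj (by decide)
        · rintro rfl; exact absurd hj (by decide)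
      · rcases hc j (by omega) with rfl | rfl
        · rw [e5, swap_apply_left]
        · rw [e6, swap_apply_right]
    rw [this]; exact h5

/-- all permutations which preserve `{5, 6}` -/
theorem Kp_all (hP : Cl P) (h0 : Kp P G (swap 0 1)) (h1 : Kp P G (swap 1 2)) (h2 : Kp P G (swap 2 3))
    (h3 : Kp P G (swap 3 4)) (h5 : Kp P G (swap 5 6)) (σ : Perm (Fin 7))
    (h : ∀ j : Fin 7, j.val < 5 → (σ j).val < 5) : Kp P G σ := by
  have hs := Kp_swaps hP h0 h1 h2 h3
  have s5 : ∀ τ : Perm (Fin 7), (∀ j : Fin 7, j.val < 5 → τ j = j) → (∀ j : Fin 7, j.val < 5 → (τ j).val < 5) → Kp P G τ :=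
    fun τ h _ => Kp_fix h5 τ h
  have s4 := Kp_step hP hs 4 (by norm_num) s5
  have s3 := Kp_step hP hs 3 (by norm_num) (fun τ a b => s4 τ a b)
  have s2 := Kp_step hP hs 2 (by norm_num) (fun τ a b => s3 τ a b)
  have s1 := Kp_step hP hs 1 (by norm_num) (fun τ a b => s2 τ a b)
  have s0 := Kp_step hP hs 0 (by norm_num) (fun τ a b => s1 τ a b)
  exact s0 σ (fun j hj => absurd hj (by omega)) h

/-- two permutations with the same pair -/
theorem G_eq (hP : Cl P) (h0 : Kp P G (swap 0 1)) (h1 : Kp P G (swap 1 2)) (h2 : Kp P G (swap 2 3))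
    (h3 : Kp P G (swap 3 4)) (h5 : Kp P G (swap 5 6)) (σ τ : Perm (Fin 7))
    (h : ∀ j : Fin 7, j.val < 5 → (τ⁻¹ (σ j)).val < 5) {g : Finset (Fin 7) → ℕ} (hg : P g) :
    G (act σ g) = G (act τ g) := by
  have h6 := Kp_all hP h0 h1 h2 h3 h5 (τ⁻¹ * σ) h _ (hP g hg τ)
  rw [act_act, mul_inv_cancel_left] at h6
  exact h6

end Pool.Agent.N443
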