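import Pool.Agent.N443.Core.Psi

/-! Sums over seven vertices. -/

set_option autoImplicit false
set_option maxRecDepth 100000
open Finset Equiv

namespace Pool.Agent.N443

noncomputable section

variable {V : Type} [Fintype V] [DecidableEq V]

omit [DecidableEq V] in
theorem sum7 {M : Type} [AddCommMonoid M] (f : (Fin 7 → V) → M) :
    ∑ u, f u = ∑ a, ∑ b, ∑ c, ∑ d, ∑ e, ∑ x, ∑ y, f ![a, b, c, d, e, x, y] := by
  let e : (Fin 7 → V) ≃ V × V × V × V × V × V × V :=
    { toFun := fun u => (u 0, u 1, u 2, u 3, u 4, u 5, u 6)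
      invFun := fun p => ![p.1, p.2.1, p.2.2.1, p.2.2.2.1, p.2.2.2.2.1, p.2.2.2.2.2.1, p.2.2.2.2.2.2]
      left_inv := by intro u; funext i; fin_cases i <;> rfl
      right_inv := by rintro ⟨a, b, c, d, e, x, y⟩; rfl }
  rw [Fintype.sum_equiv e f (fun p => f (e.symm p)) fun u => by rw [Equiv.symm_apply_apply]]
  simp only [Fintype.sum_prod_type]
  rfl

omit [DecidableEq V] in
theorem psd_sum (c : ℤ) (K : ℕ) (a : V → ℕ → ℤ) :
    ∑ _x : V, ∑ _y : V, c ≤ ∑ x, ∑ y, (c + ∑ k ∈ range K, a x k * a y k) := by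
  have h : ∑ x, ∑ y, (c + ∑ k ∈ range K, a x k * a y k) = ∑ _x : V, ∑ _y : V, c + ∑ k ∈ range K, (∑ x, a x k) ^ 2 := by
    simp only [sum_add_distrib]
    congr 1
    have h1 : ∀ x, ∑ y, ∑ k ∈ range K, a x k * a y k = ∑ k ∈ range K, a x k * ∑ y, a y k := by
      intro x
      rw [sum_comm]
      exact sum_congr rfl fun k _ => by rw [mul_sum]
    rw [sum_congr rfl fun x _ => h1 x, sum_comm]
    refine sum_congr rfl fun k _ => ?_
    rw [← sum_mul, sq]
  rw [h]
  have : 0 ≤ ∑ k ∈ range K, (∑ x, a x k) ^ 2 := sum_nonneg fun k _ => sq_nonneg _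
  linarith

/-- sets of positions of the same size have the same sums -/
theorem sum_gv_perm (H : Finset V → Prop) (Q : Finset (Fin 7)) (σ : Perm (Fin 7)) :
    ∑ u : Fin 7 → V, gv H u (Q.image σ) = ∑ u : Fin 7 → V, gv H u Q := by
  have h : ∀ u : Fin 7 → V, gv H u (Q.image σ) = act σ (gv H u) Q := fun u => rfl
  rw [sum_congr rfl fun u _ => h u]
  exact sum_act H σ (fun g => g Q)

/-- ordered tuples of distinct vertices against sets -/
theorem card_tuples {k : ℕ} (G : Finset (Finset V)) (hG : ∀ A ∈ G, A.card = k) :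
    k.factorial * G.card ≤ (univ.filter fun v : Fin k → V => univ.image v ∈ G).card := by
  classical
  have hex : ∀ A : Finset V, A.card = k → ∃ v : Fin k → V, Function.Injective v ∧ univ.image v = A := by
    intro A hA
    have e : Fin k ≃ A := (Fintype.equivFinOfCardEq (by rw [Fintype.card_coe, hA])).symm
    refine ⟨fun i => (e i : V), fun i j h => e.injective (Subtype.ext h), ?_⟩
    ext x
    rw [mem_image]
    constructor
    · rintro ⟨i, -, rfl⟩; exact (e i).2
    · intro hx
      exact ⟨e.symm ⟨x, hx⟩, mem_univ _, by rw [Equiv.apply_symm_apply]⟩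
  rcases isEmpty_or_nonempty (Fin k → V) with hemp | hne
  · have hG0 : G = ∅ := by
      rw [eq_empty_iff_forall_notMem]
      intro A hA
      obtain ⟨v, -⟩ := hex A (hG A hA)
      exact hemp.false v
    rw [hG0, card_empty, mul_zero]
    exact Nat.zero_le _
  choose! v hv1 hv2 using hex
  have hc : ((univ : Finset (Perm (Fin k))) ×ˢ G).card = k.factorial * G.card := by
    rw [card_product, card_univ, Fintype.card_perm, Fintype.card_fin]
  rw [← hc]
  refine card_le_card_of_injOn (fun p => v p.2 ∘ p.1) ?_ ?_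
  · intro p hp
    rw [coe_product, Set.mem_prod] at hp
    rw [coe_filter, Set.mem_setOf_eq]
    refine ⟨mem_univ _, ?_⟩
    have h1 := hG p.2 hp.2
    have : univ.image (v p.2 ∘ p.1) = p.2 := by
      rw [← image_image, image_univ_equiv, hv2 _ h1]
    rw [this]; exact hp.2
  · intro p hp q hq h
    rw [coe_product, Set.mem_prod] at hp hq
    have h1 := hG p.2 hp.2
    have h2 := hG q.2 hq.2
    have e1 : univ.image (v p.2 ∘ p.1) = p.2 := by rw [← image_image, image_univ_equiv, hv2 _ h1]
    have e2 : univ.image (v q.2 ∘ q.1) = q.2 := by rw [← image_image, image_univ_equiv, hv2 _ h2]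
    have h' : v p.2 ∘ p.1 = v q.2 ∘ q.1 := h
    have e3 : p.2 = q.2 := by rw [← e1, h', e2]
    have e4 : p.1 = q.1 := by
      ext i
      have := congrFun h' i
      rw [e3] at this
      exact congrArg Fin.val (hv1 _ h2 this)
    exact Prod.ext e4 e3

end

end Pool.Agent.N443
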