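import Pool.Agent.Y435.T7.Swp

/-! Numbers given by their bits; exchanges of bits. -/

set_option autoImplicit false
set_option maxRecDepth 100000
open Finset

namespace Pool.Agent.N443

open Pool.Agent.Y435.T7 (bt bt_eq bt_lt bt01 sb sb_eq st cnd al)

/-- the number with bits `b 0, ..., b (n-1)` -/
def mkN (n : ℕ) (b : ℕ → ℕ) : ℕ := ∑ j ∈ range n, b j * 2 ^ j

theorem mkN_succ (n : ℕ) (b : ℕ → ℕ) : mkN (n + 1) b = mkN n b + b n * 2 ^ n := by
  unfold mkN; rw [sum_range_succ]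

theorem mkN_congr {n : ℕ} {b c : ℕ → ℕ} (h : ∀ j < n, b j = c j) : mkN n b = mkN n c :=
  sum_congr rfl fun j hj => by rw [h j (mem_range.mp hj)]

theorem mkN_lt {n : ℕ} {b : ℕ → ℕ} (hb : ∀ j, b j ≤ 1) : mkN n b < 2 ^ n := by
  induction n with
  | zero => simp [mkN]
  | succ n ih =>
    rw [mkN_succ, pow_succ]
    have h1 := Nat.mul_le_mul_right (2 ^ n) (hb n)
    omega

theorem mkN_add (k n : ℕ) (b : ℕ → ℕ) : mkN (k + n) b = mkN k b + 2 ^ k * mkN n (fun j => b (j + k)) := by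
  induction n with
  | zero => simp [mkN]
  | succ n ih =>
    rw [← add_assoc, mkN_succ, ih, mkN_succ, mul_add, ← add_assoc]
    congr 1
    rw [add_comm k n, pow_add]
    ring

theorem mkN_mod {n k : ℕ} (hk : k ≤ n) {b : ℕ → ℕ} (hb : ∀ j, b j ≤ 1) : mkN n b % 2 ^ k = mkN k b := by
  obtain ⟨r, rfl⟩ := Nat.exists_eq_add_of_le hk
  rw [mkN_add, Nat.add_mul_mod_self_left, Nat.mod_eq_of_lt (mkN_lt hb)]

theorem mkN_div {n k : ℕ} (hk : k ≤ n) {b : ℕ → ℕ} (hb : ∀ j, b j ≤ 1) :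
    mkN n b / 2 ^ k = mkN (n - k) (fun j => b (j + k)) := by
  obtain ⟨r, rfl⟩ := Nat.exists_eq_add_of_le hk
  rw [mkN_add, Nat.add_mul_div_left _ _ (by positivity), Nat.div_eq_of_lt (mkN_lt hb), zero_add,
    Nat.add_sub_cancel_left]

theorem bt_mkN {n j : ℕ} (hj : j < n) {b : ℕ → ℕ} (hb : ∀ j, b j ≤ 1) : bt j (mkN n b) = b j := by
  rw [bt_eq, mkN_div hj.le hb]
  obtain ⟨r, hr⟩ : ∃ r, n - j = 1 + r := ⟨n - j - 1, by omega⟩
  rw [hr, mkN_add]
  have h1 : mkN 1 (fun k => b (k + j)) = b j := by simp [mkN]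
  rw [h1, pow_one, Nat.add_mul_mod_self_left]
  have := hb j
  omega

theorem bt_le (j c : ℕ) : bt j c ≤ 1 := by rcases bt01 j c with h | h <;> omega

theorem mkN_bt {n c : ℕ} (hc : c < 2 ^ n) : mkN n (fun j => bt j c) = c := by
  induction n generalizing c with
  | zero =>
    have : c = 0 := by simpa using hc
    simp [mkN, this]
  | succ n ih =>
    rw [mkN_succ]
    have h1 := ih (c := c % 2 ^ n) (Nat.mod_lt _ (by positivity))
    have h2 : mkN n (fun j => bt j c) = mkN n (fun j => bt j (c % 2 ^ n)) := by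
      refine mkN_congr fun j hj => ?_
      rw [bt_eq, bt_eq]
      obtain ⟨r, rfl⟩ : ∃ r, n = j + (r + 1) := ⟨n - j - 1, by omega⟩
      rw [pow_add, Nat.mod_mul_right_div_self, pow_succ', Nat.mod_mul_right_mod]
    rw [h2, h1, bt_eq]
    have h3 : c / 2 ^ n < 2 := by
      rw [Nat.div_lt_iff_lt_mul (by positivity), ← pow_succ']; exact hc
    rw [Nat.mod_eq_of_lt h3]
    have := Nat.mod_add_div c (2 ^ n)
    rw [mul_comm (c / 2 ^ n)]
    exact this

/-- exchange of two numbers -/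
def sx (p q j : ℕ) : ℕ := if j = p then q else if j = q then p else j

theorem sb_mkN {n p q : ℕ} (h : p < q) (hq : q < n) {b : ℕ → ℕ} (hb : ∀ j, b j ≤ 1) :
    sb p q (mkN n b) = mkN n (fun j => b (sx p q j)) := by
  rw [sb_eq, bt_mkN (by omega) hb, bt_mkN hq hb]
  have hp : p ∈ range n := mem_range.mpr (by omega)
  have hq' : q ∈ (range n).erase p := mem_erase.mpr ⟨by omega, mem_range.mpr hq⟩
  have e1 : mkN n b = b p * 2 ^ p + (b q * 2 ^ q + ∑ j ∈ ((range n).erase p).erase q, b j * 2 ^ j) := by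
    unfold mkN
    rw [← add_sum_erase _ _ hp, ← add_sum_erase _ _ hq']
  have e2 : mkN n (fun j => b (sx p q j)) = b q * 2 ^ p + (b p * 2 ^ q + ∑ j ∈ ((range n).erase p).erase q, b j * 2 ^ j) := by
    unfold mkN
    rw [← add_sum_erase _ _ hp, ← add_sum_erase _ _ hq']
    have a1 : sx p q p = q := by simp [sx]
    have a2 : sx p q q = p := by
      unfold sx; rw [if_neg (by omega), if_pos rfl]
    simp only [a1, a2]
    congr 2
    refine sum_congr rfl fun j hj => ?_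
    rw [mem_erase, mem_erase] at hj
    have : sx p q j = j := by unfold sx; rw [if_neg hj.2.1, if_neg hj.1]
    rw [this]
  rw [e1, e2]
  have hpq : 2 ^ p ≤ 2 ^ q := Nat.pow_le_pow_right (by norm_num) h.le
  have h1 := hb p
  have h2 := hb q
  generalize (∑ j ∈ ((range n).erase p).erase q, b j * 2 ^ j) = R
  obtain ⟨d, hd⟩ := Nat.exists_eq_add_of_le hpq
  rw [hd, Nat.add_sub_cancel_left]
  generalize 2 ^ p = P
  rcases Nat.le_one_iff_eq_zero_or_eq_one.mp h1 with h1 | h1 <;>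
    rcases Nat.le_one_iff_eq_zero_or_eq_one.mp h2 with h2 | h2 <;> rw [h1, h2] <;> omega

/-- the number with the bits `l` of `c` -/
def pcd (l : List ℕ) (c : ℕ) : ℕ := @List.rec ℕ (fun _ => ℕ) 0 (fun i _ ih => Nat.add (bt i c) (Nat.mul 2 ih)) l

theorem pcd_mkN {n : ℕ} {b : ℕ → ℕ} (hb : ∀ j, b j ≤ 1) (l : List ℕ) (hl : ∀ i ∈ l, i < n) :
    pcd l (mkN n b) = mkN l.length (fun j => b (l.getD j 0)) := by
  induction l with
  | nil => simp [pcd, mkN]
  | cons i l ih =>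
    have e : pcd (i :: l) (mkN n b) = bt i (mkN n b) + 2 * pcd l (mkN n b) := rfl
    rw [e, bt_mkN (hl i (by simp)) hb, ih fun j hj => hl j (by simp [hj]), List.length_cons, add_comm l.length 1, mkN_add]
    congr 1
    simp [mkN]

end Pool.Agent.N443
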