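import Pool.Agent.N443.Core.Run

/-! Sixteen by sixteen products in packed form. -/

set_option autoImplicit false
set_option maxRecDepth 100000
open Finset

namespace Pool.Agent.N443

set_option exponentiation.threshold 3000
open Pool.Agent.Y435.T7 (bt sb st cnd al d2 swp enc fld enc_congr enc_zero enc_succ enc_lt enc_add enc_mulc
  enc_prod enc_nest enc_testBit fld_testBit fld_lt fld_enc enc_fld fld_fld enc_inj land_ones swp_enc sb_lt)

/-- part `j` of sixteen entries -/
theorem kx_eq {n : ℕ} {F : ℕ → ℕ} (hF : ∀ i < 2 ^ (n + 4), F i < 2 ^ 40) {j : ℕ} (hj : j < 2 ^ n) :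
    Nat.land (Nat.shiftRight (enc 40 (n + 4) F) (640 * j)) (2 ^ 640 - 1) = enc 40 4 (fun t => F (16 * j + t)) := by
  rw [land_ones]
  have e1 : enc 40 (n + 4) F = enc 640 n (fun j => enc 40 4 (fun t => F (16 * j + t))) := by
    rw [show 640 = 40 * 2 ^ 4 from rfl, enc_nest 40 4 (fun j t => F (16 * j + t)) n]
    refine enc_congr fun i _ => ?_
    show F i = F (16 * (i / 16) + i % 16)
    rw [Nat.div_add_mod]
  rw [e1]
  refine fld_enc (s := 640) (n := n) (by norm_num) (fun i hi => ?_) hj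
  refine enc_lt (s := 40) (n := 4) fun t ht => hF _ ?_
  rw [pow_add]
  omega

/-- entries in distance sixteen -/
theorem ky_eq (X a n : ℕ) : Nat.land (Nat.shiftRight X (40 * a)) (enc 640 n (fun _ => 2 ^ 40 - 1))
    = enc 640 n (fun y => fld 40 X (a + 16 * y)) := by
  refine Nat.eq_of_testBit_eq fun t => ?_
  have h40 : ∀ i < 2 ^ n, (fun _ : ℕ => 2 ^ 40 - 1) i < 2 ^ 640 := fun i _ =>
    lt_of_lt_of_le (Nat.sub_lt (by positivity) one_pos) (Nat.pow_le_pow_right (by norm_num) (by norm_num))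
  have hfl : ∀ i < 2 ^ n, (fun y => fld 40 X (a + 16 * y)) i < 2 ^ 640 := fun i _ =>
    lt_of_lt_of_le (fld_lt _ _ _) (Nat.pow_le_pow_right (by norm_num) (by norm_num))
  show ((X >>> (40 * a)) &&& _).testBit t = _
  rw [Nat.testBit_and, Nat.testBit_shiftRight, enc_testBit (by norm_num) h40, enc_testBit (by norm_num) hfl,
    Nat.testBit_two_pow_sub_one, fld_testBit]
  have e : 40 * a + t = t % 640 + 40 * (a + 16 * (t / 640)) := by
    have := Nat.mod_add_div t 640
    omega
  rw [e]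
  generalize X.testBit _ = u
  cases decide (t / 640 < 2 ^ n) <;> cases decide (t % 640 < 40) <;> cases u <;> rfl

theorem kd_eq (X a : ℕ) : Nat.land (Nat.shiftRight X (40 * a)) 1099511627775 = fld 40 X a :=
  land_ones X 40 a

theorem mul_out (n : ℕ) (f g : ℕ → ℕ) : Nat.mul (enc 40 4 g) (enc 640 n f) = enc 40 (n + 4) (fun i => f (i / 16) * g (i % 16)) := by
  show enc 40 4 g * enc 640 n f = _
  rw [mul_comm]
  exact enc_prod 40 4 f g n

theorem encLand {s : ℕ} (hs : 0 < s) {n : ℕ} {f g : ℕ → ℕ} (hf : ∀ i < 2 ^ n, f i < 2 ^ s)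
    (hg : ∀ i < 2 ^ n, g i < 2 ^ s) :
    Nat.land (enc s n f) (enc s n g) = enc s n (fun i => Nat.land (f i) (g i)) := by
  refine Nat.eq_of_testBit_eq fun t => ?_
  have hfg : ∀ i < 2 ^ n, (fun i => Nat.land (f i) (g i)) i < 2 ^ s := fun i hi =>
    lt_of_le_of_lt (Nat.and_le_left (n := f i) (m := g i)) (hf i hi)
  rw [enc_testBit hs hfg]
  show (enc s n f &&& enc s n g).testBit t = (_ && (f (t / s) &&& g (t / s)).testBit (t % s))
  rw [Nat.testBit_and, Nat.testBit_and, enc_testBit hs hf, enc_testBit hs hg]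
  cases decide (t / s < 2 ^ n) <;> simp

theorem enc_eq_zero {s : ℕ} (hs : 0 < s) {n : ℕ} {f : ℕ → ℕ} (hf : ∀ i < 2 ^ n, f i < 2 ^ s)
    (h : enc s n f = 0) {i : ℕ} (hi : i < 2 ^ n) : f i = 0 := by
  have h0 : enc s n (fun _ => 0) = 0 := by unfold enc; simp
  exact enc_inj hs hf (fun _ _ => by positivity) (h.trans h0.symm) hi

theorem ltLand {x w s : ℕ} (hx : x < 2 ^ s) (hws : w ≤ s) (h : Nat.land x (2 ^ s - 2 ^ w) = 0) : x < 2 ^ w := by
  refine Nat.lt_pow_two_of_testBit _ fun b hb => ?_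
  by_cases hbs : b < s
  · have h1 : (x &&& (2 ^ s - 2 ^ w)).testBit b = false := by
      have : x &&& (2 ^ s - 2 ^ w) = 0 := h
      rw [this, Nat.zero_testBit]
    have e : 2 ^ s - 2 ^ w = (2 ^ (s - w) - 1) <<< w := by
      rw [Nat.shiftLeft_eq, Nat.sub_mul, one_mul, ← pow_add, Nat.sub_add_cancel hws]
    rw [Nat.testBit_and, e, Nat.testBit_shiftLeft, Nat.testBit_two_pow_sub_one,
      decide_eq_true hb, decide_eq_true (show b - w < s - w by omega)] at h1
    simpa using h1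
  · exact Nat.testBit_lt_two_pow (lt_of_lt_of_le hx (Nat.pow_le_pow_right (by norm_num) (by omega)))

end Pool.Agent.N443
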