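import Pool.Agent.N443.Core.Run

/-! Closure of a set of codes under permutations, one bit per code. -/

set_option autoImplicit false
set_option maxRecDepth 100000
open Finset

namespace Pool.Agent.N443

open Pool.Agent.Y435.T7 (bt sb st cnd al d2 swp enc fld enc_congr enc_zero enc_succ enc_lt enc_testBit fld_testBit fld_lt
  enc_fld swp_enc sb_lt bt_add bt_add_self bt_lt bt01)

/-- exchanges of index bits of vectors of bits -/
def rr (n : ℕ) (l : List (ℕ × ℕ)) : ℕ → ℕ := @List.rec (ℕ × ℕ) (fun _ => ℕ → ℕ) (fun x => x)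
  (fun op _ ih x => ih (swp 1 n op.1 op.2 x)) l

/-- closure under a list of exchanges -/
def cls (n : ℕ) (L : List (List (ℕ × ℕ))) : ℕ → ℕ := @List.rec (List (ℕ × ℕ)) (fun _ => ℕ → ℕ) (fun x => x)
  (fun l _ ih x => ih (Nat.lor x (rr n l x))) L

def wf2 (n : ℕ) (l : List (ℕ × ℕ)) : Bool := l.all fun op => decide (op.1 < op.2) && decide (op.2 < n)

def ph2 : List (ℕ × ℕ) → ℕ → ℕ
  | [], i => i
  | op :: l, i => sb op.1 op.2 (ph2 l i)

def ta2 : List (ℕ × ℕ) → ℕ → ℕ
  | [], j => j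
  | op :: l, j => ta2 l (sx op.1 op.2 j)

theorem wf2_cons {n : ℕ} {op : ℕ × ℕ} {l : List (ℕ × ℕ)} (h : wf2 n (op :: l) = true) : op.1 < op.2 ∧ op.2 < n ∧ wf2 n l = true := by
  unfold wf2 at h
  rw [List.all_cons, Bool.and_eq_true, Bool.and_eq_true, decide_eq_true_eq, decide_eq_true_eq] at h
  exact ⟨h.1.1, h.1.2, h.2⟩

theorem ph2_lt {n : ℕ} (l : List (ℕ × ℕ)) (h : wf2 n l = true) {i : ℕ} (hi : i < 2 ^ n) : ph2 l i < 2 ^ n := by
  induction l with
  | nil => exact hi
  | cons op l ih =>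
    obtain ⟨h1, h2, h3⟩ := wf2_cons h
    exact sb_lt h1 h2 (ih h3)

theorem ph2_mkN {n : ℕ} (l : List (ℕ × ℕ)) (h : wf2 n l = true) {b : ℕ → ℕ} (hb : ∀ j, b j ≤ 1) :
    ph2 l (mkN n b) = mkN n (fun j => b (ta2 l j)) := by
  induction l with
  | nil => rfl
  | cons op l ih =>
    obtain ⟨h1, h2, h3⟩ := wf2_cons h
    unfold ph2 ta2
    rw [ih h3, sb_mkN h1 h2 fun j => hb _]

theorem rr_cons (n : ℕ) (op : ℕ × ℕ) (l : List (ℕ × ℕ)) (x : ℕ) : rr n (op :: l) x = rr n l (swp 1 n op.1 op.2 x) := rfl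

theorem rr_enc {n : ℕ} (l : List (ℕ × ℕ)) (h : wf2 n l = true) {F : ℕ → ℕ} (hF : ∀ i < 2 ^ n, F i < 2 ^ 1) :
    rr n l (enc 1 n F) = enc 1 n (fun i => F (ph2 l i)) := by
  induction l generalizing F with
  | nil => rfl
  | cons op l ih =>
    obtain ⟨h1, h2, h3⟩ := wf2_cons h
    rw [rr_cons, swp_enc (by norm_num) h1 h2 hF, ih h3 fun i hi => hF _ (sb_lt h1 h2 hi)]
    rfl

theorem rr_testBit {n : ℕ} (l : List (ℕ × ℕ)) (h : wf2 n l = true) {x : ℕ} (hx : x < 2 ^ (1 * 2 ^ n)) {c : ℕ} (hc : c < 2 ^ n) :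
    (rr n l x).testBit c = x.testBit (ph2 l c) := by
  have e : x = enc 1 n (fld 1 x) := (enc_fld (by norm_num) hx).symm
  conv_lhs => rw [e]
  rw [rr_enc l h fun i _ => fld_lt 1 x i, enc_testBit (by norm_num) fun i _ => fld_lt 1 x _, Nat.div_one, Nat.mod_one,
    decide_eq_true hc, Bool.true_and, fld_testBit]
  simp

theorem rr_lt {n : ℕ} (l : List (ℕ × ℕ)) (h : wf2 n l = true) {x : ℕ} (hx : x < 2 ^ (1 * 2 ^ n)) : rr n l x < 2 ^ (1 * 2 ^ n) := by
  have e : x = enc 1 n (fld 1 x) := (enc_fld (by norm_num) hx).symm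
  rw [e, rr_enc l h fun i _ => fld_lt 1 x i]
  exact enc_lt fun i _ => fld_lt 1 x _

theorem cls_cons (n : ℕ) (l : List (ℕ × ℕ)) (L : List (List (ℕ × ℕ))) (x : ℕ) :
    cls n (l :: L) x = cls n L (Nat.lor x (rr n l x)) := rfl

theorem cls_good {n : ℕ} {G : ℕ → Prop} (L : List (List (ℕ × ℕ))) (hL : ∀ l ∈ L, wf2 n l = true)
    (hG : ∀ l ∈ L, ∀ c < 2 ^ n, G (ph2 l c) → G c) {x : ℕ} (hx : x < 2 ^ (1 * 2 ^ n))
    (h : ∀ c < 2 ^ n, x.testBit c = true → G c) : ∀ c < 2 ^ n, (cls n L x).testBit c = true → G c := by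
  induction L generalizing x with
  | nil => exact h
  | cons l L ih =>
    rw [cls_cons]
    have hl := hL l List.mem_cons_self
    refine ih (fun l' hl' => hL l' (List.mem_cons_of_mem _ hl')) (fun l' hl' => hG l' (List.mem_cons_of_mem _ hl')) ?_ ?_
    · exact Nat.or_lt_two_pow hx (rr_lt l hl hx)
    · intro c hc hb
      have hb' : (x ||| rr n l x).testBit c = true := hb
      rw [Nat.testBit_or, Bool.or_eq_true, rr_testBit l hl hx hc] at hb'
      rcases hb' with hb' | hb'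
      · exact h c hc hb'
      · exact hG l List.mem_cons_self c hc (h _ (ph2_lt l hl hc) hb')

/-- the set of the members of a list -/
def mkS (R : List ℕ) : ℕ := @List.rec ℕ (fun _ => ℕ) 0 (fun r _ ih => Nat.lor (Nat.pow 2 r) ih) R

theorem mkS_mem (R : List ℕ) {c : ℕ} (h : (mkS R).testBit c = true) : c ∈ R := by
  induction R with
  | nil => exact absurd h (by show ¬ (Nat.testBit 0 c = true); simp)
  | cons r R ih =>
    have h' : (2 ^ r ||| mkS R).testBit c = true := h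
    rw [Nat.testBit_or, Bool.or_eq_true, Nat.testBit_two_pow, decide_eq_true_eq] at h'
    rcases h' with h' | h'
    · rw [← h']; exact List.mem_cons_self
    · exact List.mem_cons_of_mem _ (ih h')

theorem mkS_lt {N : ℕ} (R : List ℕ) (h : ∀ c ∈ R, c < N) : mkS R < 2 ^ N := by
  induction R with
  | nil => show 0 < _; positivity
  | cons r R ih =>
    refine Nat.or_lt_two_pow ?_ (ih fun c hc => h c (List.mem_cons_of_mem _ hc))
    exact Nat.pow_lt_pow_right (by norm_num) (h r List.mem_cons_self)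

/-- the codes whose bit `i` is one -/
def ibv (i n : ℕ) : ℕ := @Nat.rec (fun _ => ℕ) 0 (fun k v => cnd (Nat.beq k i)
  (Nat.shiftLeft (Nat.sub (Nat.pow 2 (Nat.pow 2 k)) 1) (Nat.pow 2 k)) (Nat.add v (Nat.shiftLeft v (Nat.pow 2 k)))) n

theorem enc_one (n : ℕ) : enc 1 n (fun _ => 1) = 2 ^ 2 ^ n - 1 := by
  induction n with
  | zero => rw [enc_zero]; norm_num
  | succ n ih =>
    rw [enc_succ, ih, one_mul, pow_succ 2 n, Nat.mul_two, pow_add]
    have : 1 ≤ 2 ^ 2 ^ n := Nat.one_le_two_pow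
    obtain ⟨k, hk⟩ := Nat.exists_eq_add_of_le this
    rw [hk, Nat.add_sub_cancel_left]
    have e : (1 + k) * (1 + k) = 1 + (k + k * (1 + k)) := by ring
    rw [e, Nat.add_sub_cancel_left]

theorem ibv_eq (i n : ℕ) : ibv i n = enc 1 n (bt i) := by
  induction n with
  | zero => rw [enc_zero]; show 0 = _; rw [bt_lt (by positivity)]
  | succ n ih =>
    have e : ibv i (n + 1) = cnd (Nat.beq n i) (Nat.shiftLeft (Nat.sub (Nat.pow 2 (Nat.pow 2 n)) 1) (Nat.pow 2 n))
      (Nat.add (ibv i n) (Nat.shiftLeft (ibv i n) (Nat.pow 2 n))) := rfl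
    rw [e, enc_succ]
    rcases lt_trichotomy n i with h | h | h
    · have hb : Nat.beq n i = false := by
        rw [← Bool.not_eq_true]; exact fun hh => by have := Nat.eq_of_beq_eq_true hh; omega
      rw [hb, ih]
      show enc 1 n (bt i) + (enc 1 n (bt i)) <<< (2 ^ n) = _
      rw [Nat.shiftLeft_eq, one_mul]
      congr 2
      exact enc_congr fun j hj => by
        have hji : j < 2 ^ i := lt_of_lt_of_le hj (Nat.pow_le_pow_right (by norm_num) h.le)
        have hji2 : 2 ^ n + j < 2 ^ i := by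
          have : 2 ^ (n + 1) ≤ 2 ^ i := Nat.pow_le_pow_right (by norm_num) h
          rw [pow_succ] at this; omega
        rw [bt_lt hji, bt_lt hji2]
    · subst h
      rw [Nat.beq_refl]
      show (2 ^ 2 ^ n - 1) <<< (2 ^ n) = _
      rw [Nat.shiftLeft_eq, one_mul]
      have e1 : enc 1 n (bt n) = 0 := by
        have : enc 1 n (bt n) = enc 1 n (fun _ => 0) := enc_congr fun j hj => bt_lt hj
        rw [this]; simp [enc]
      have e2 : enc 1 n (fun i => bt n (2 ^ n + i)) = 2 ^ 2 ^ n - 1 := by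
        rw [← enc_one]
        exact enc_congr fun j hj => bt_add_self hj
      rw [e1, e2, zero_add]
    · have hb : Nat.beq n i = false := by
        rw [← Bool.not_eq_true]; exact fun hh => by have := Nat.eq_of_beq_eq_true hh; omega
      rw [hb, ih]
      show enc 1 n (bt i) + (enc 1 n (bt i)) <<< (2 ^ n) = _
      rw [Nat.shiftLeft_eq, one_mul]
      congr 2
      exact enc_congr fun j _ => (bt_add h j).symm

theorem ibv_testBit {i n c : ℕ} (hc : c < 2 ^ n) (h : (ibv i n).testBit c = true) : bt i c = 1 := by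
  rw [ibv_eq, enc_testBit (by norm_num) fun j _ => by rcases bt01 i j with h | h <;> rw [h] <;> norm_num] at h
  rw [Nat.div_one, Nat.mod_one, decide_eq_true hc, Bool.true_and] at h
  rcases bt01 i c with h1 | h1
  · rw [h1] at h; exact absurd h (by decide)
  · exact h1

/-- the codes with all bits of a list equal to one -/
def all1 (n : ℕ) (l : List ℕ) : ℕ := @List.rec ℕ (fun _ => ℕ) (Nat.sub (Nat.pow 2 (Nat.pow 2 n)) 1) (fun i _ ih => Nat.land (ibv i n) ih) l
def NF (n : ℕ) (BD : List (List ℕ)) : ℕ := @List.rec (List ℕ) (fun _ => ℕ) 0 (fun l _ ih => Nat.lor (all1 n l) ih) BD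

theorem all1_testBit {n c : ℕ} (hc : c < 2 ^ n) (l : List ℕ) (h : (all1 n l).testBit c = true) : ∀ i ∈ l, bt i c = 1 := by
  induction l with
  | nil => intro i hi; simp at hi
  | cons a l ih =>
    have h' : (ibv a n &&& all1 n l).testBit c = true := h
    rw [Nat.testBit_and, Bool.and_eq_true] at h'
    intro i hi
    rcases List.mem_cons.mp hi with rfl | hi
    · exact ibv_testBit hc h'.1
    · exact ih h'.2 i hi

theorem NF_testBit {n c : ℕ} (hc : c < 2 ^ n) (BD : List (List ℕ)) (h : (NF n BD).testBit c = true) :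
    ∃ l ∈ BD, ∀ i ∈ l, bt i c = 1 := by
  induction BD with
  | nil => exact absurd h (by show ¬ (Nat.testBit 0 c = true); simp)
  | cons l BD ih =>
    have h' : (all1 n l ||| NF n BD).testBit c = true := h
    rw [Nat.testBit_or, Bool.or_eq_true] at h'
    rcases h' with h' | h'
    · exact ⟨l, List.mem_cons_self, all1_testBit hc l h'⟩
    · obtain ⟨l', hl', h2⟩ := ih h'
      exact ⟨l', List.mem_cons_of_mem _ hl', h2⟩

/-- the check that the closure covers all admissible codes -/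
def cov (n : ℕ) (R : List ℕ) (L : List (List (ℕ × ℕ))) (BD : List (List ℕ)) : Bool :=
  Nat.beq (Nat.lor (cls n L (mkS R)) (NF n BD)) (Nat.sub (Nat.pow 2 (Nat.pow 2 n)) 1)

theorem cov_spec {n : ℕ} {R : List ℕ} {L : List (List (ℕ × ℕ))} {BD : List (List ℕ)} (h : cov n R L BD = true)
    {G : ℕ → Prop} (hR : ∀ c ∈ R, c < 2 ^ n ∧ G c) (hL : ∀ l ∈ L, wf2 n l = true)
    (hG : ∀ l ∈ L, ∀ c < 2 ^ n, G (ph2 l c) → G c) {c : ℕ} (hc : c < 2 ^ n) : G c ∨ ∃ l ∈ BD, ∀ i ∈ l, bt i c = 1 := by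
  have h1 : (cls n L (mkS R) ||| NF n BD) = 2 ^ 2 ^ n - 1 := Nat.eq_of_beq_eq_true h
  have h2 : (cls n L (mkS R) ||| NF n BD).testBit c = true := by
    rw [h1, Nat.testBit_two_pow_sub_one, decide_eq_true hc]
  rw [Nat.testBit_or, Bool.or_eq_true] at h2
  rcases h2 with h2 | h2
  · refine Or.inl (cls_good L hL hG ?_ ?_ c hc h2)
    · rw [one_mul]
      exact mkS_lt R fun c hc => (hR c hc).1
    · intro c _ hb
      exact (hR c (mkS_mem R hb)).2
  · exact Or.inr (NF_testBit hc BD h2)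

/-- a list of exchanges is right for a permutation -/
def okP (n : ℕ) (CQ : List (Finset (Fin 7))) (l : List (ℕ × ℕ)) (σ : Equiv.Perm (Fin 7)) : Bool :=
  wf2 n l && (List.range n).all (fun j => decide (CQ.getD (ta2 l j) ∅ = (CQ.getD j ∅).image σ))

theorem okP_spec {n : ℕ} {CQ : List (Finset (Fin 7))} {l : List (ℕ × ℕ)} {σ : Equiv.Perm (Fin 7)}
    (h : okP n CQ l σ = true) {g : Finset (Fin 7) → ℕ} (hg : ∀ Q, g Q ≤ 1) :
    wf2 n l = true ∧ ph2 l (codeN n CQ g) = codeN n CQ (act σ g) := by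
  simp only [okP, Bool.and_eq_true, decide_eq_true_eq, List.all_eq_true, List.mem_range] at h
  refine ⟨h.1, ?_⟩
  unfold codeN
  rw [ph2_mkN l h.1 fun j => hg _]
  exact mkN_congr fun j hj => by rw [h.2 j hj]; rfl

end Pool.Agent.N443
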