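import Pool.Agent.N443.Core.Act

/-! The sum over the pairs of positions; averages. -/

set_option autoImplicit false
set_option maxRecDepth 100000
open Finset Equiv

namespace Pool.Agent.N443

noncomputable section

/-- the image of the last two positions -/
def pr (σ : Perm (Fin 7)) : Finset (Fin 7) := ({5, 6} : Finset (Fin 7)).image σ

theorem pr_mul (τ σ : Perm (Fin 7)) : pr (τ * σ) = (pr σ).image τ := by
  unfold pr; rw [image_image]; rfl

theorem pr_card (σ : Perm (Fin 7)) : (pr σ).card = 2 := by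
  unfold pr; rw [card_image_of_injective _ σ.injective]; rfl

/-- hypotheses on a value of a set function -/
structure Inv7 (P : (Finset (Fin 7) → ℕ) → Prop) (G : (Finset (Fin 7) → ℕ) → ℕ) : Prop where
  cl : Cl P
  h0 : Kp P G (swap 0 1)
  h1 : Kp P G (swap 1 2)
  h2 : Kp P G (swap 2 3)
  h3 : Kp P G (swap 3 4)
  h5 : Kp P G (swap 5 6)

variable {P : (Finset (Fin 7) → ℕ) → Prop} {G : (Finset (Fin 7) → ℕ) → ℕ}

theorem G_pr (h : Inv7 P G) {σ τ : Perm (Fin 7)} (e : pr σ = pr τ) {g : Finset (Fin 7) → ℕ} (hg : P g) :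
    G (act σ g) = G (act τ g) := by
  refine G_eq h.cl h.h0 h.h1 h.h2 h.h3 h.h5 σ τ ?_ hg
  intro j hj
  by_contra hlt
  have hc : ∀ x : Fin 7, ¬ x.val < 5 → x ∈ ({5, 6} : Finset (Fin 7)) := by decide
  have h1 : σ j ∈ pr τ := by
    have := mem_image_of_mem τ (hc _ hlt)
    have e2 : τ (τ⁻¹ (σ j)) = σ j := by rw [← Perm.mul_apply, mul_inv_cancel, Perm.one_apply]
    rwa [e2] at this
  rw [← e] at h1
  obtain ⟨i, hi, hij⟩ := mem_image.mp h1
  have := σ.injective hij
  rw [this] at hi
  have hd : ∀ j : Fin 7, j ∈ ({5, 6} : Finset (Fin 7)) → ¬ j.val < 5 := by decide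
  exact hd j hi hj

open Classical in
/-- a permutation with the given pair -/
def rp (S : Finset (Fin 7)) : Perm (Fin 7) := if h : ∃ σ : Perm (Fin 7), pr σ = S then h.choose else 1

theorem pr_rp {σ : Perm (Fin 7)} : pr (rp (pr σ)) = pr σ := by
  have h : ∃ τ : Perm (Fin 7), pr τ = pr σ := ⟨σ, rfl⟩
  unfold rp
  rw [dif_pos h]
  exact h.choose_spec

/-- the sum over all pairs of positions -/
def Psi (G : (Finset (Fin 7) → ℕ) → ℕ) (g : Finset (Fin 7) → ℕ) : ℕ :=
  ∑ S ∈ powersetCard 2 univ, G (act (rp S) g)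

theorem ex_pr {S : Finset (Fin 7)} (hS : S ∈ powersetCard 2 (univ : Finset (Fin 7))) : ∃ σ : Perm (Fin 7), pr σ = S := by
  obtain ⟨x, y, hxy, rfl⟩ := card_eq_two.mp (mem_powersetCard.mp hS).2
  have h56 : (swap 5 x) 6 ≠ x := by
    intro h
    have h2 : swap 5 x x = swap 5 x (swap 5 x 6) := by rw [h]
    rw [swap_apply_right, swap_apply_self] at h2
    exact absurd h2 (by decide)
  refine ⟨swap (swap 5 x 6) y * swap 5 x, ?_⟩
  unfold pr
  rw [image_insert, image_singleton, Perm.mul_apply, Perm.mul_apply, swap_apply_left, swap_apply_left,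
    swap_apply_of_ne_of_ne (Ne.symm h56) hxy]

theorem Psi_act (h : Inv7 P G) {g : Finset (Fin 7) → ℕ} (hg : P g) (τ : Perm (Fin 7)) : Psi G (act τ g) = Psi G g := by
  unfold Psi
  refine sum_bij (fun S _ => S.image τ) ?_ ?_ ?_ ?_
  · intro S hS
    rw [mem_powersetCard] at hS ⊢
    exact ⟨subset_univ _, by rw [card_image_of_injective _ τ.injective, hS.2]⟩
  · intro S _ T _ hST
    exact image_injective τ.injective hST
  · intro S hS
    refine ⟨S.image τ.symm, ?_, ?_⟩
    · rw [mem_powersetCard] at hS ⊢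
      exact ⟨subset_univ _, by rw [card_image_of_injective _ τ.symm.injective, hS.2]⟩
    · rw [image_image]; simp
  · intro S hS
    obtain ⟨σ, rfl⟩ := ex_pr hS
    rw [act_act]
    refine G_pr h ?_ hg
    rw [pr_mul, pr_rp, ← pr_mul, pr_rp]

theorem Psi_list (h : Inv7 P G) (L : List (Perm (Fin 7))) (hn : (L.map pr).Nodup)
    (hl : L.length = 21) {g : Finset (Fin 7) → ℕ} (hg : P g) :
    Psi G g = (L.map fun σ => G (act σ g)).sum := by
  have e1 : (L.map pr).toFinset = powersetCard 2 (univ : Finset (Fin 7)) := by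
    refine eq_of_subset_of_card_le ?_ ?_
    · intro S hS
      rw [List.mem_toFinset, List.mem_map] at hS
      obtain ⟨σ, _, rfl⟩ := hS
      exact mem_powersetCard.mpr ⟨subset_univ _, pr_card σ⟩
    · rw [List.toFinset_card_of_nodup hn, List.length_map, hl, card_powersetCard]
      decide
  unfold Psi
  rw [← e1, List.sum_toFinset _ hn, List.map_map]
  congr 1
  refine List.map_congr_left fun σ _ => ?_
  exact (G_pr h pr_rp hg)

variable {V : Type} [Fintype V] [DecidableEq V]

open Classical in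
/-- the set function of seven vertices -/
def gv (H : Finset V → Prop) (u : Fin 7 → V) : Finset (Fin 7) → ℕ := fun Q => if H (Q.image u) then 1 else 0

omit [Fintype V] in
theorem gv_act (H : Finset V → Prop) (u : Fin 7 → V) (σ : Perm (Fin 7)) : act σ (gv H u) = gv H (u ∘ σ) := by
  funext Q
  unfold act gv
  rw [image_image]

theorem sum_act (H : Finset V → Prop) (σ : Perm (Fin 7)) (G : (Finset (Fin 7) → ℕ) → ℕ) :
    ∑ u : Fin 7 → V, G (act σ (gv H u)) = ∑ u : Fin 7 → V, G (gv H u) := by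
  simp only [gv_act]
  exact Equiv.sum_comp (Equiv.arrowCongr σ.symm (Equiv.refl V)) (fun u => G (gv H u))

theorem sum_Psi (H : Finset V → Prop) (G : (Finset (Fin 7) → ℕ) → ℕ) :
    ∑ u : Fin 7 → V, Psi G (gv H u) = 21 * ∑ u : Fin 7 → V, G (gv H u) := by
  unfold Psi
  rw [sum_comm, sum_congr rfl fun S _ => sum_act H (rp S) G, sum_const, card_powersetCard, smul_eq_mul]
  rfl

end

end Pool.Agent.N443
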