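import Pool.Agent.N443.Core.Psi
import Pool.Agent.Y435.T7.Enc

/-! Kernel functions which rearrange packed vectors, and their meaning. -/

set_option autoImplicit false
set_option maxRecDepth 100000
open Finset

namespace Pool.Agent.N443

open Pool.Agent.Y435.T7 (bt sb st cnd al d2 swp as1 as2 as3 as4 enc fld enc_congr enc_zero enc_succ enc_lt enc_add enc_mulc
  enc_prod enc_nest enc_testBit fld_testBit fld_lt fld_enc enc_fld fld_fld enc_inj land_ones swp_enc sb_lt)

/-! basic facts -/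

theorem st_eq {α : Type} (f : ℕ → α) (n : ℕ) : st f n = f n := by cases n <;> rfl

theorem al_true {n : ℕ} {f : ℕ → Bool} (h : al n f = true) {k : ℕ} (hk : k < n) : f k = true := by
  induction n with
  | zero => omega
  | succ n ih =>
    have h' : cnd (f n) (al n f) false = true := h
    cases e : f n with
    | false => rw [e] at h'; exact absurd (show false = true from h') (by decide)
    | true =>
      rw [e] at h'
      rcases Nat.lt_succ_iff_lt_or_eq.mp hk with hk | rfl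
      · exact ih h' hk
      · exact e

theorem cnd_and {a b : Bool} (h : cnd a b false = true) : a = true ∧ b = true := by
  cases a <;> [exact absurd (show false = true from h) (by decide); exact ⟨rfl, h⟩]

theorem enc_const_succ (s n c : ℕ) : enc s (n + 1) (fun _ => c) = d2 (s * 2 ^ n) (enc s n (fun _ => c)) := by
  rw [enc_succ]
  show _ = enc s n (fun _ => c) + (enc s n (fun _ => c)) <<< (s * 2 ^ n)
  rw [Nat.shiftLeft_eq]

theorem enc_rep (s n : ℕ) (f : ℕ → ℕ) : d2 (s * 2 ^ n) (enc s n f) = enc s (n + 1) (fun i => f (i % 2 ^ n)) := by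
  rw [enc_succ]
  show enc s n f + (enc s n f) <<< (s * 2 ^ n) = _
  rw [Nat.shiftLeft_eq]
  congr 1
  · exact enc_congr fun i hi => by rw [Nat.mod_eq_of_lt hi]
  · congr 1
    exact enc_congr fun i hi => by rw [Nat.add_mod_left, Nat.mod_eq_of_lt hi]

theorem as_step {s n : ℕ} {F A : ℕ → ℕ} (h : ∀ k, A k = enc s n (fun j => F (k + j))) (k : ℕ) :
    Nat.add (A k) (Nat.shiftLeft (A (Nat.add k (2 ^ n))) (s * 2 ^ n)) = enc s (n + 1) (fun j => F (k + j)) := by
  rw [enc_succ, h, h]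
  show _ + (_ <<< (s * 2 ^ n)) = _
  rw [Nat.shiftLeft_eq]
  congr 2
  exact enc_congr fun j _ => by
    show F (k + 2 ^ n + j) = F (k + (2 ^ n + j))
    rw [add_assoc]

theorem as1_eq (s : ℕ) (F : ℕ → ℕ) (k : ℕ) : as1 s F k = enc s 1 (fun j => F (k + j)) := by
  rw [← as_step (n := 0) (A := F) (fun k => by rw [enc_zero, add_zero]) k]
  show _ = Nat.add (F k) (Nat.shiftLeft (F (k + 2 ^ 0)) (s * 2 ^ 0))
  rw [pow_zero, mul_one]; rfl
theorem as2_eq (s : ℕ) (F : ℕ → ℕ) (k : ℕ) : as2 s F k = enc s 2 (fun j => F (k + j)) := as_step (as1_eq s F) k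
theorem as3_eq (s : ℕ) (F : ℕ → ℕ) (k : ℕ) : as3 s F k = enc s 3 (fun j => F (k + j)) := as_step (as2_eq s F) k
theorem as4_eq (s : ℕ) (F : ℕ → ℕ) (k : ℕ) : as4 s F k = enc s 4 (fun j => F (k + j)) := as_step (as3_eq s F) k
theorem as2_eq0 (s : ℕ) (F : ℕ → ℕ) : as2 s F 0 = enc s 2 F :=
  (as2_eq s F 0).trans (enc_congr fun i _ => by rw [zero_add])
theorem as4_eq0 (s : ℕ) (F : ℕ → ℕ) : as4 s F 0 = enc s 4 F :=
  (as4_eq s F 0).trans (enc_congr fun i _ => by rw [zero_add])

/-- sum of `f k` for `k < n` -/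
def osum (f : ℕ → ℕ) (n : ℕ) : ℕ := @Nat.rec (fun _ => ℕ) 0 (fun k s => Nat.add s (f k)) n

theorem osum_eq (f : ℕ → ℕ) (n : ℕ) : osum f n = ∑ k ∈ range n, f k := by
  induction n with
  | zero => rfl
  | succ n ih => rw [sum_range_succ, ← ih]; rfl

theorem osum_enc {s n : ℕ} (f : ℕ → ℕ) (F : ℕ → ℕ → ℕ) (K : ℕ) (h : ∀ k < K, f k = enc s n (F k)) :
    osum f K = enc s n (fun i => ∑ k ∈ range K, F k i) := by
  rw [osum_eq]
  induction K with
  | zero => simp [enc]
  | succ K ih =>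
    rw [sum_range_succ, ih fun k hk => h k (by omega), h K (by omega), enc_add]
    exact enc_congr fun i _ => by rw [sum_range_succ]

/-! rearrangement of index bits -/

/-- duplications and exchanges of index bits -/
def run (l : List (ℕ × ℕ × ℕ)) : ℕ → ℕ := @List.rec (ℕ × ℕ × ℕ) (fun _ => ℕ → ℕ) (fun x => x) (fun op _ ih x =>
  ih (cnd (Nat.beq op.2.1 op.2.2) (d2 (Nat.mul 40 (Nat.pow 2 op.1)) x) (swp 40 op.1 op.2.1 op.2.2 x))) l

/-- well-formed lists of operations -/
def wf (nf : ℕ) : List (ℕ × ℕ × ℕ) → ℕ → Bool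
  | [], n => decide (n = nf)
  | op :: l, n => decide (op.1 = n) && (cond (decide (op.2.1 = op.2.2)) (wf nf l (n + 1))
      (decide (op.2.1 < op.2.2) && (decide (op.2.2 < n) && wf nf l n)))

/-- action on indices -/
def phi : List (ℕ × ℕ × ℕ) → ℕ → ℕ
  | [], i => i
  | op :: l, i => if op.2.1 = op.2.2 then phi l i % 2 ^ op.1 else sb op.2.1 op.2.2 (phi l i)

/-- action on the numbers of the bits -/
def tau : List (ℕ × ℕ × ℕ) → ℕ → ℕ
  | [], j => j
  | op :: l, j => if op.2.1 = op.2.2 then tau l j else tau l (sx op.2.1 op.2.2 j)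

theorem phi_lt {nf : ℕ} (l : List (ℕ × ℕ × ℕ)) {n : ℕ} (h : wf nf l n = true) {i : ℕ} (hi : i < 2 ^ nf) : phi l i < 2 ^ n := by
  induction l generalizing n with
  | nil =>
    simp only [wf, decide_eq_true_eq] at h
    rw [h]; exact hi
  | cons op l ih =>
    simp only [wf, Bool.and_eq_true, decide_eq_true_eq] at h
    obtain ⟨h1, h2⟩ := h
    unfold phi
    by_cases e : op.2.1 = op.2.2
    · rw [if_pos e, h1]; exact Nat.mod_lt _ (by positivity)
    · rw [if_neg e]
      rw [decide_eq_false e, cond_false, Bool.and_eq_true, Bool.and_eq_true, decide_eq_true_eq, decide_eq_true_eq] at h2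
      exact sb_lt h2.1 h2.2.1 (ih h2.2.2)

theorem run_cons (op : ℕ × ℕ × ℕ) (l : List (ℕ × ℕ × ℕ)) (x : ℕ) : run (op :: l) x =
    run l (cnd (Nat.beq op.2.1 op.2.2) (d2 (Nat.mul 40 (Nat.pow 2 op.1)) x) (swp 40 op.1 op.2.1 op.2.2 x)) := rfl

theorem run_enc {nf : ℕ} (l : List (ℕ × ℕ × ℕ)) {n : ℕ} (h : wf nf l n = true) {F : ℕ → ℕ} (hF : ∀ i < 2 ^ n, F i < 2 ^ 40) :
    run l (enc 40 n F) = enc 40 nf (fun i => F (phi l i)) := by
  induction l generalizing n F with
  | nil =>
    simp only [wf, decide_eq_true_eq] at h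
    rw [h]; rfl
  | cons op l ih =>
    simp only [wf, Bool.and_eq_true, decide_eq_true_eq] at h
    obtain ⟨h1, h2⟩ := h
    rw [run_cons]
    by_cases e : op.2.1 = op.2.2
    · rw [decide_eq_true e, cond_true] at h2
      have hb : Nat.beq op.2.1 op.2.2 = true := by rw [e]; exact Nat.beq_refl _
      rw [hb]
      have e1 : cnd true (d2 (Nat.mul 40 (Nat.pow 2 op.1)) (enc 40 n F)) (swp 40 op.1 op.2.1 op.2.2 (enc 40 n F))
          = enc 40 (n + 1) (fun i => F (i % 2 ^ n)) := by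
        rw [h1]; exact enc_rep 40 n F
      rw [e1, ih h2 fun i _ => hF _ (Nat.mod_lt _ (by positivity))]
      refine enc_congr fun i _ => ?_
      show F (phi l i % 2 ^ n) = F (phi (op :: l) i)
      conv_rhs => unfold phi
      rw [if_pos e, h1]
    · rw [decide_eq_false e, cond_false, Bool.and_eq_true, Bool.and_eq_true, decide_eq_true_eq, decide_eq_true_eq] at h2
      obtain ⟨h3, h4, h5⟩ := h2
      have hb : Nat.beq op.2.1 op.2.2 = false := by
        rw [← Bool.not_eq_true]; exact fun hh => e (Nat.eq_of_beq_eq_true hh)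
      rw [hb]
      have e1 : cnd false (d2 (Nat.mul 40 (Nat.pow 2 op.1)) (enc 40 n F)) (swp 40 op.1 op.2.1 op.2.2 (enc 40 n F))
          = enc 40 n (fun i => F (sb op.2.1 op.2.2 i)) := by
        rw [h1]; exact swp_enc (by norm_num) h3 h4 hF
      rw [e1, ih h5 fun i hi => hF _ (sb_lt h3 h4 hi)]
      refine enc_congr fun i _ => ?_
      show F (sb op.2.1 op.2.2 (phi l i)) = F (phi (op :: l) i)
      conv_rhs => unfold phi
      rw [if_neg e]

theorem phi_mkN {nf : ℕ} (l : List (ℕ × ℕ × ℕ)) {n : ℕ} (h : wf nf l n = true) {b : ℕ → ℕ} (hb : ∀ j, b j ≤ 1) :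
    phi l (mkN nf b) = mkN n (fun j => b (tau l j)) := by
  induction l generalizing n with
  | nil =>
    simp only [wf, decide_eq_true_eq] at h
    rw [h]; rfl
  | cons op l ih =>
    simp only [wf, Bool.and_eq_true, decide_eq_true_eq] at h
    obtain ⟨h1, h2⟩ := h
    unfold phi tau
    by_cases e : op.2.1 = op.2.2
    · rw [decide_eq_true e, cond_true] at h2
      simp only [if_pos e]
      rw [ih h2, h1, mkN_mod (by omega) fun j => hb _]
    · rw [decide_eq_false e, cond_false, Bool.and_eq_true, Bool.and_eq_true, decide_eq_true_eq, decide_eq_true_eq] at h2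
      obtain ⟨h3, h4, h5⟩ := h2
      simp only [if_neg e]
      rw [ih h5, sb_mkN h3 h4 fun j => hb _]

/-! sums of steps -/

/-- one step: flag, sources of the bits of the code, operations -/
abbrev Stp := ℕ × List ℕ × List (ℕ × ℕ × ℕ)

def tot (B : ℕ → ℕ → ℕ) (l : List Stp) (c : ℕ) : ℕ :=
  @List.rec Stp (fun _ => ℕ) 0 (fun s _ ih => Nat.add (st (fun c => run s.2.2 (B s.1 c)) (pcd s.2.1 c)) ih) l

/-- a step is right for a permutation -/
def okS (n0 nf nc : ℕ) (CQ LT : List (Finset (Fin 7))) (s : Stp) (σ : Equiv.Perm (Fin 7)) : Bool :=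
  wf nf s.2.2 n0 && (decide (s.2.1.length = nc) && (s.2.1.all (fun i => decide (i < nc)) &&
    ((List.range nc).all (fun j => decide (CQ.getD (s.2.1.getD j 0) ∅ = (CQ.getD j ∅).image σ)) &&
      (List.range n0).all (fun j => decide (LT.getD (tau s.2.2 j) ∅ = (LT.getD j ∅).image σ)))))

def codeN (n : ℕ) (L : List (Finset (Fin 7))) (g : Finset (Fin 7) → ℕ) : ℕ := mkN n (fun j => g (L.getD j ∅))

theorem okS_spec {n0 nf nc : ℕ} {CQ LT : List (Finset (Fin 7))} {s : Stp} {σ : Equiv.Perm (Fin 7)}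
    (h : okS n0 nf nc CQ LT s σ = true) {g : Finset (Fin 7) → ℕ} (hg : ∀ Q, g Q ≤ 1) :
    wf nf s.2.2 n0 = true ∧ pcd s.2.1 (codeN nc CQ g) = codeN nc CQ (act σ g) ∧
      phi s.2.2 (codeN nf LT g) = codeN n0 LT (act σ g) := by
  simp only [okS, Bool.and_eq_true, decide_eq_true_eq, List.all_eq_true, List.mem_range] at h
  obtain ⟨h1, h2, h3, h4, h5⟩ := h
  refine ⟨h1, ?_, ?_⟩
  · unfold codeN
    rw [pcd_mkN (fun j => hg _) _ h3, h2]
    exact mkN_congr fun j hj => by rw [h4 j hj]; rfl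
  · unfold codeN
    rw [phi_mkN _ h1 fun j => hg _]
    exact mkN_congr fun j hj => by rw [h5 j hj]; rfl

theorem tot_enc {n0 nf : ℕ} {B : ℕ → ℕ → ℕ} {Bv : ℕ → ℕ → ℕ → ℕ} (hB : ∀ fl c, B fl c = enc 40 n0 (Bv fl c))
    (hlt : ∀ fl c i, i < 2 ^ n0 → Bv fl c i < 2 ^ 40) (l : List Stp) (hl : ∀ s ∈ l, wf nf s.2.2 n0 = true) (c : ℕ) :
    tot B l c = enc 40 nf (fun i => (l.map fun s => Bv s.1 (pcd s.2.1 c) (phi s.2.2 i)).sum) := by
  induction l with
  | nil => simp [tot, enc]
  | cons s l ih =>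
    have e : tot B (s :: l) c = st (fun c => run s.2.2 (B s.1 c)) (pcd s.2.1 c) + tot B l c := rfl
    rw [e, st_eq, ih fun s hs => hl s (List.mem_cons_of_mem _ hs), hB, run_enc _ (hl s List.mem_cons_self) (hlt _ _), enc_add]
    exact enc_congr fun i _ => by rw [List.map_cons, List.sum_cons]

end Pool.Agent.N443
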