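import Pool.Agent.N443.Core.Run

/-! Rearrangements with insertion of index bits; grouped sums. -/

set_option autoImplicit false
set_option maxRecDepth 100000
open Finset

namespace Pool.Agent.N443

open Pool.Agent.Y435.T7 (bt sb st cnd al d2 swp enc fld enc_congr enc_zero enc_succ enc_lt enc_add enc_mulc
  enc_prod enc_nest enc_testBit fld_testBit fld_lt fld_enc enc_fld fld_fld enc_inj enc_sub land_ones swp_enc sb_lt)

/-- mask of the fields whose index bit `q` is zero -/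
def mq (q n : ℕ) : ℕ := @Nat.rec (fun _ => ℕ) (Nat.sub (Nat.pow 2 (Nat.mul 40 (Nat.pow 2 q))) 1)
  (fun k ih => d2 (Nat.mul (Nat.mul 40 (Nat.pow 2 (Nat.add q 1))) (Nat.pow 2 k)) ih) (Nat.sub n (Nat.add q 1))

/-- insertion of an index bit at the place `q`, the bit `q` goes to the top -/
def insF (n q x : ℕ) : ℕ := Nat.add (d2 (Nat.mul 40 (Nat.pow 2 q)) (Nat.land x (mq q n)))
  (Nat.shiftLeft (d2 (Nat.mul 40 (Nat.pow 2 q)) (Nat.land (Nat.shiftRight x (Nat.mul 40 (Nat.pow 2 q))) (mq q n)))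
    (Nat.mul 40 (Nat.pow 2 n)))

/-- the index `i` with the bit `q` replaced by `v` -/
def iq (q v i : ℕ) : ℕ := i / 2 ^ (q + 1) * 2 ^ (q + 1) + v * 2 ^ q + i % 2 ^ q
def insI (q n i : ℕ) : ℕ := iq q (i / 2 ^ n) (i % 2 ^ n)

theorem mq_eq (q r : ℕ) : mq q (r + (q + 1)) = enc (40 * 2 ^ (q + 1)) r (fun _ => 2 ^ (40 * 2 ^ q) - 1) := by
  unfold mq
  rw [show Nat.sub (r + (q + 1)) (Nat.add q 1) = r from Nat.add_sub_cancel r (q + 1)]
  induction r with
  | zero => rw [enc_zero]; rfl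
  | succ r ih =>
    rw [enc_const_succ, ← ih]
    rfl

theorem half_eq {q r v : ℕ} (hv : v < 2) {F : ℕ → ℕ} (hF : ∀ i < 2 ^ (r + (q + 1)), F i < 2 ^ 40) :
    Nat.land (Nat.shiftRight (enc 40 (r + (q + 1)) F) (40 * 2 ^ q * v)) (mq q (r + (q + 1)))
      = enc (40 * 2 ^ (q + 1)) r (fun j => enc 40 q (fun i => F (j * 2 ^ (q + 1) + v * 2 ^ q + i))) := by
  have e0 : 40 * 2 ^ (q + 1) = (40 * 2 ^ q) * 2 ^ 1 := by rw [pow_succ]; ring
  have e1 : enc 40 (r + (q + 1)) F = enc (40 * 2 ^ (q + 1)) r (fun j => enc 40 (q + 1) (fun i => F (j * 2 ^ (q + 1) + i))) := by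
    rw [enc_nest 40 (q + 1) (fun j i => F (j * 2 ^ (q + 1) + i)) r]
    refine enc_congr fun i _ => ?_
    show F i = F (i / 2 ^ (q + 1) * 2 ^ (q + 1) + i % 2 ^ (q + 1))
    rw [Nat.div_add_mod']
  have hb : ∀ j < 2 ^ r, ∀ i < 2 ^ (q + 1), F (j * 2 ^ (q + 1) + i) < 2 ^ 40 := fun j hj i hi => hF _ (by
    calc j * 2 ^ (q + 1) + i < (j + 1) * 2 ^ (q + 1) := by rw [add_mul, one_mul]; omega
      _ ≤ 2 ^ r * 2 ^ (q + 1) := Nat.mul_le_mul_right _ hj
      _ = 2 ^ (r + (q + 1)) := (pow_add 2 r (q + 1)).symm)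
  rw [e1, mq_eq, e0]
  have h2 := enc_sub (s := 40 * 2 ^ q) (k := 1) (n := r) (by positivity)
    (R := fun j => enc 40 (q + 1) (fun i => F (j * 2 ^ (q + 1) + i)))
    (fun j hj => by rw [← e0]; exact enc_lt (hb j hj)) (j := v) (by omega)
  rw [h2]
  refine enc_congr fun j hj => ?_
  show fld (40 * 2 ^ q) (enc 40 (q + 1) (fun i => F (j * 2 ^ (q + 1) + i))) v = _
  have e2 : enc 40 (q + 1) (fun i => F (j * 2 ^ (q + 1) + i)) = enc (40 * 2 ^ q) 1 (fun w => enc 40 q (fun i => F (j * 2 ^ (q + 1) + w * 2 ^ q + i))) := by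
    rw [enc_nest 40 q (fun w i => F (j * 2 ^ (q + 1) + w * 2 ^ q + i)) 1, add_comm 1 q]
    refine enc_congr fun i _ => ?_
    show F (j * 2 ^ (q + 1) + i) = F (j * 2 ^ (q + 1) + i / 2 ^ q * 2 ^ q + i % 2 ^ q)
    rw [add_assoc, Nat.div_add_mod']
  rw [e2]
  refine fld_enc (s := 40 * 2 ^ q) (n := 1) (by positivity) (fun w hw => ?_) (by omega)
  refine enc_lt fun i hi => ?_
  have hw' : w < 2 := hw
  have := hb j hj (w * 2 ^ q + i) (by
    rw [pow_succ]
    rcases Nat.lt_succ_iff_lt_or_eq.mp hw' with h | h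
    · have : w = 0 := by omega
      rw [this]; omega
    · rw [h]; omega)
  rw [← add_assoc] at this
  exact this

theorem dup_eq {q r v : ℕ} (F : ℕ → ℕ) :
    d2 (40 * 2 ^ q) (enc (40 * 2 ^ (q + 1)) r (fun j => enc 40 q (fun i => F (j * 2 ^ (q + 1) + v * 2 ^ q + i))))
      = enc 40 (r + (q + 1)) (fun i => F (iq q v i)) := by
  have e3 : ∀ j, enc 40 q (fun i => F (j * 2 ^ (q + 1) + v * 2 ^ q + i)) * (1 + 2 ^ (40 * 2 ^ q))
      = enc 40 (q + 1) (fun i => F (j * 2 ^ (q + 1) + v * 2 ^ q + i % 2 ^ q)) := by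
    intro j
    rw [← enc_rep 40 q (fun i => F (j * 2 ^ (q + 1) + v * 2 ^ q + i))]
    generalize enc 40 q (fun i => F (j * 2 ^ (q + 1) + v * 2 ^ q + i)) = X
    show X * (1 + 2 ^ (40 * 2 ^ q)) = X + X <<< (40 * 2 ^ q)
    rw [Nat.shiftLeft_eq]
    ring
  have e4 : ∀ X : ℕ, d2 (40 * 2 ^ q) X = X * (1 + 2 ^ (40 * 2 ^ q)) := by
    intro X
    show X + X <<< (40 * 2 ^ q) = X * (1 + 2 ^ (40 * 2 ^ q))
    rw [Nat.shiftLeft_eq]
    ring
  rw [e4, enc_mulc]
  rw [enc_congr fun j _ => e3 j, enc_nest 40 (q + 1) (fun j i => F (j * 2 ^ (q + 1) + v * 2 ^ q + i % 2 ^ q)) r]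
  refine enc_congr fun i _ => ?_
  unfold iq
  congr 2
  exact Nat.mod_mod_of_dvd _ (pow_dvd_pow 2 (Nat.le_succ q))

theorem insF_enc {n q : ℕ} (hq : q < n) {F : ℕ → ℕ} (hF : ∀ i < 2 ^ n, F i < 2 ^ 40) :
    insF n q (enc 40 n F) = enc 40 (n + 1) (fun i => F (insI q n i)) := by
  obtain ⟨r, rfl⟩ : ∃ r, n = r + (q + 1) := ⟨n - (q + 1), by omega⟩
  unfold insF
  have h0 := half_eq (v := 0) (by norm_num) hF
  have h1 := half_eq (v := 1) (by norm_num) hF
  rw [mul_zero] at h0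
  rw [mul_one] at h1
  have h0' : Nat.land (enc 40 (r + (q + 1)) F) (mq q (r + (q + 1))) = _ := h0
  have h1' : Nat.land (Nat.shiftRight (enc 40 (r + (q + 1)) F) (Nat.mul 40 (Nat.pow 2 q))) (mq q (r + (q + 1))) = _ := h1
  have e0 := dup_eq (q := q) (r := r) (v := 0) F
  have e1 := dup_eq (q := q) (r := r) (v := 1) F
  rw [h0', h1']
  show d2 (40 * 2 ^ q) _ + (d2 (40 * 2 ^ q) _) <<< (40 * 2 ^ (r + (q + 1))) = _
  rw [e0, e1, Nat.shiftLeft_eq, enc_succ]
  congr 1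
  · refine enc_congr fun i hi => ?_
    unfold insI
    rw [Nat.div_eq_of_lt hi, Nat.mod_eq_of_lt hi]
  · congr 1
    refine enc_congr fun i hi => ?_
    unfold insI
    rw [Nat.add_div_left _ (by positivity), Nat.div_eq_of_lt hi, Nat.add_mod_left, Nat.mod_eq_of_lt hi]

theorem insI_lt {n q i : ℕ} (hq : q < n) (hi : i < 2 ^ (n + 1)) : insI q n i < 2 ^ n := by
  unfold insI
  have hv : i / 2 ^ n < 2 := by
    rw [Nat.div_lt_iff_lt_mul (by positivity), ← pow_succ']; exact hi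
  have hm : i % 2 ^ n < 2 ^ n := Nat.mod_lt _ (by positivity)
  generalize i / 2 ^ n = v at hv ⊢
  generalize i % 2 ^ n = j at hm ⊢
  unfold iq
  obtain ⟨r, rfl⟩ : ∃ r, n = (q + 1) + r := ⟨n - (q + 1), by omega⟩
  have h1 : j / 2 ^ (q + 1) < 2 ^ r := by
    rw [Nat.div_lt_iff_lt_mul (by positivity), mul_comm, ← pow_add]; exact hm
  have h2 : v * 2 ^ q ≤ 2 ^ q := by
    calc v * 2 ^ q ≤ 1 * 2 ^ q := Nat.mul_le_mul_right _ (by omega)
      _ = 2 ^ q := one_mul _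
  have h3 : j % 2 ^ q < 2 ^ q := Nat.mod_lt _ (by positivity)
  have h4 : 2 ^ (q + 1) = 2 ^ q + 2 ^ q := by rw [pow_succ]; ring
  calc j / 2 ^ (q + 1) * 2 ^ (q + 1) + v * 2 ^ q + j % 2 ^ q < j / 2 ^ (q + 1) * 2 ^ (q + 1) + 2 ^ (q + 1) := by omega
    _ = (j / 2 ^ (q + 1) + 1) * 2 ^ (q + 1) := by ring
    _ ≤ 2 ^ r * 2 ^ (q + 1) := Nat.mul_le_mul_right _ h1
    _ = 2 ^ (q + 1 + r) := by rw [← pow_add, add_comm]

theorem insI_mkN {n q : ℕ} (hq : q < n) {b : ℕ → ℕ} (hb : ∀ j, b j ≤ 1) :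
    insI q n (mkN (n + 1) b) = mkN n (fun j => b (if j = q then n else j)) := by
  unfold insI
  rw [mkN_div (by omega) hb, mkN_mod (by omega) hb, Nat.add_sub_cancel_left]
  have e1 : mkN 1 (fun j => b (j + n)) = b n := by simp [mkN]
  rw [e1]
  unfold iq
  rw [mkN_div (by omega) hb, mkN_mod (by omega) hb]
  obtain ⟨r, rfl⟩ : ∃ r, n = q + (1 + r) := ⟨n - (q + 1), by omega⟩
  rw [show q + (1 + r) - (q + 1) = r by omega, mkN_add q (1 + r), mkN_add 1 r]
  have e2 : mkN 1 (fun j => b (if j + q = q then q + (1 + r) else j + q)) = b (q + (1 + r)) := by simp [mkN]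
  have e3 : mkN q (fun j => b (if j = q then q + (1 + r) else j)) = mkN q b :=
    mkN_congr fun j hj => by rw [if_neg (by omega)]
  have e4 : mkN r (fun j => b (if j + 1 + q = q then q + (1 + r) else j + 1 + q)) = mkN r (fun j => b (j + (q + 1))) :=
    mkN_congr fun j hj => by rw [if_neg (by omega), add_assoc, add_comm 1 q]
  rw [e2, e3, e4, pow_succ, pow_one]
  ring

/-! operations -/

/-- duplications, exchanges and insertions of index bits -/
def run3 (l : List (ℕ × ℕ × ℕ)) : ℕ → ℕ := @List.rec (ℕ × ℕ × ℕ) (fun _ => ℕ → ℕ) (fun x => x) (fun op _ ih x =>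
  ih (cnd (Nat.beq op.2.1 op.2.2) (d2 (Nat.mul 40 (Nat.pow 2 op.1)) x)
    (cnd (Nat.ble op.2.1 op.2.2) (swp 40 op.1 op.2.1 op.2.2 x) (insF op.1 op.2.2 x)))) l

/-- well-formed lists of operations -/
def wf3 (nf : ℕ) : List (ℕ × ℕ × ℕ) → ℕ → Bool
  | [], n => decide (n = nf)
  | op :: l, n => decide (op.1 = n) && (cond (decide (op.2.1 = op.2.2)) (wf3 nf l (n + 1))
      (cond (decide (op.2.1 ≤ op.2.2)) (decide (op.2.2 < n) && wf3 nf l n) (decide (op.2.2 < n) && wf3 nf l (n + 1))))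

/-- action on indices -/
def phi3 : List (ℕ × ℕ × ℕ) → ℕ → ℕ
  | [], i => i
  | op :: l, i => if op.2.1 = op.2.2 then phi3 l i % 2 ^ op.1 else
      if op.2.1 ≤ op.2.2 then sb op.2.1 op.2.2 (phi3 l i) else insI op.2.2 op.1 (phi3 l i)

/-- action on the numbers of the bits -/
def tau3 : List (ℕ × ℕ × ℕ) → ℕ → ℕ
  | [], j => j
  | op :: l, j => if op.2.1 = op.2.2 then tau3 l j else
      if op.2.1 ≤ op.2.2 then tau3 l (sx op.2.1 op.2.2 j) else tau3 l (if j = op.2.2 then op.1 else j)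

theorem phi3_append (l m : List (ℕ × ℕ × ℕ)) (i : ℕ) : phi3 (l ++ m) i = phi3 l (phi3 m i) := by
  induction l with
  | nil => rfl
  | cons op l ih =>
    rw [List.cons_append]
    unfold phi3
    rw [ih]

theorem wf3_cases {nf : ℕ} {op : ℕ × ℕ × ℕ} {l : List (ℕ × ℕ × ℕ)} {n : ℕ} (h : wf3 nf (op :: l) n = true) :
    op.1 = n ∧ ((op.2.1 = op.2.2 ∧ wf3 nf l (n + 1) = true) ∨
      (op.2.1 < op.2.2 ∧ op.2.2 < n ∧ wf3 nf l n = true) ∨
      (op.2.2 < op.2.1 ∧ op.2.2 < n ∧ wf3 nf l (n + 1) = true)) := by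
  simp only [wf3, Bool.and_eq_true, decide_eq_true_eq] at h
  obtain ⟨h1, h2⟩ := h
  refine ⟨h1, ?_⟩
  by_cases e : op.2.1 = op.2.2
  · rw [decide_eq_true e, cond_true] at h2
    exact Or.inl ⟨e, h2⟩
  · rw [decide_eq_false e, cond_false] at h2
    by_cases e2 : op.2.1 ≤ op.2.2
    · rw [decide_eq_true e2, cond_true, Bool.and_eq_true, decide_eq_true_eq] at h2
      exact Or.inr (Or.inl ⟨by omega, h2.1, h2.2⟩)
    · rw [decide_eq_false e2, cond_false, Bool.and_eq_true, decide_eq_true_eq] at h2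
      exact Or.inr (Or.inr ⟨by omega, h2.1, h2.2⟩)

theorem phi3_lt {nf : ℕ} (l : List (ℕ × ℕ × ℕ)) {n : ℕ} (h : wf3 nf l n = true) {i : ℕ} (hi : i < 2 ^ nf) :
    phi3 l i < 2 ^ n := by
  induction l generalizing n with
  | nil =>
    simp only [wf3, decide_eq_true_eq] at h
    rw [h]; exact hi
  | cons op l ih =>
    obtain ⟨h1, h2⟩ := wf3_cases h
    unfold phi3
    rcases h2 with ⟨e, h2⟩ | ⟨e, h3, h2⟩ | ⟨e, h3, h2⟩
    · rw [if_pos e, h1]; exact Nat.mod_lt _ (by positivity)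
    · rw [if_neg (by omega), if_pos (by omega)]
      exact sb_lt e h3 (ih h2)
    · rw [if_neg (by omega), if_neg (by omega), h1]
      exact insI_lt h3 (ih h2)

theorem run3_cons (op : ℕ × ℕ × ℕ) (l : List (ℕ × ℕ × ℕ)) (x : ℕ) : run3 (op :: l) x =
    run3 l (cnd (Nat.beq op.2.1 op.2.2) (d2 (Nat.mul 40 (Nat.pow 2 op.1)) x)
      (cnd (Nat.ble op.2.1 op.2.2) (swp 40 op.1 op.2.1 op.2.2 x) (insF op.1 op.2.2 x))) := rfl

theorem beq_false {a b : ℕ} (h : a ≠ b) : Nat.beq a b = false := by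
  rw [← Bool.not_eq_true]; exact fun hh => h (Nat.eq_of_beq_eq_true hh)
theorem ble_false {a b : ℕ} (h : b < a) : Nat.ble a b = false := by
  rw [← Bool.not_eq_true]
  intro hh
  have := Nat.le_of_ble_eq_true hh
  omega

theorem run3_enc {nf : ℕ} (l : List (ℕ × ℕ × ℕ)) {n : ℕ} (h : wf3 nf l n = true) {F : ℕ → ℕ} (hF : ∀ i < 2 ^ n, F i < 2 ^ 40) :
    run3 l (enc 40 n F) = enc 40 nf (fun i => F (phi3 l i)) := by
  induction l generalizing n F with
  | nil =>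
    simp only [wf3, decide_eq_true_eq] at h
    rw [h]; rfl
  | cons op l ih =>
    obtain ⟨h1, h2⟩ := wf3_cases h
    rw [run3_cons]
    rcases h2 with ⟨e, h2⟩ | ⟨e, h3, h2⟩ | ⟨e, h3, h2⟩
    · have hb : Nat.beq op.2.1 op.2.2 = true := by rw [e]; exact Nat.beq_refl _
      rw [hb]
      have e1 : cnd true (d2 (Nat.mul 40 (Nat.pow 2 op.1)) (enc 40 n F)) (cnd (Nat.ble op.2.1 op.2.2)
          (swp 40 op.1 op.2.1 op.2.2 (enc 40 n F)) (insF op.1 op.2.2 (enc 40 n F)))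
          = enc 40 (n + 1) (fun i => F (i % 2 ^ n)) := by
        rw [h1]; exact enc_rep 40 n F
      rw [e1, ih h2 fun i _ => hF _ (Nat.mod_lt _ (by positivity))]
      refine enc_congr fun i _ => ?_
      show F (phi3 l i % 2 ^ n) = F (phi3 (op :: l) i)
      conv_rhs => unfold phi3
      rw [if_pos e, h1]
    · have hb : Nat.beq op.2.1 op.2.2 = false := beq_false (by omega)
      have hb2 : Nat.ble op.2.1 op.2.2 = true := Nat.ble_eq_true_of_le (by omega)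
      rw [hb, hb2]
      have e1 : cnd false (d2 (Nat.mul 40 (Nat.pow 2 op.1)) (enc 40 n F)) (cnd true
          (swp 40 op.1 op.2.1 op.2.2 (enc 40 n F)) (insF op.1 op.2.2 (enc 40 n F)))
          = enc 40 n (fun i => F (sb op.2.1 op.2.2 i)) := by
        rw [h1]; exact swp_enc (by norm_num) e h3 hF
      rw [e1, ih h2 fun i hi => hF _ (sb_lt e h3 hi)]
      refine enc_congr fun i _ => ?_
      show F (sb op.2.1 op.2.2 (phi3 l i)) = F (phi3 (op :: l) i)
      conv_rhs => unfold phi3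
      rw [if_neg (by omega), if_pos (by omega)]
    · have hb : Nat.beq op.2.1 op.2.2 = false := beq_false (by omega)
      have hb2 : Nat.ble op.2.1 op.2.2 = false := ble_false e
      rw [hb, hb2]
      have e1 : cnd false (d2 (Nat.mul 40 (Nat.pow 2 op.1)) (enc 40 n F)) (cnd false
          (swp 40 op.1 op.2.1 op.2.2 (enc 40 n F)) (insF op.1 op.2.2 (enc 40 n F)))
          = enc 40 (n + 1) (fun i => F (insI op.2.2 n i)) := by
        rw [h1]; exact insF_enc h3 hF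
      rw [e1, ih h2 fun i hi => hF _ (insI_lt h3 hi)]
      refine enc_congr fun i _ => ?_
      show F (insI op.2.2 n (phi3 l i)) = F (phi3 (op :: l) i)
      conv_rhs => unfold phi3
      rw [if_neg (by omega), if_neg (by omega), h1]

theorem phi3_mkN {nf : ℕ} (l : List (ℕ × ℕ × ℕ)) {n : ℕ} (h : wf3 nf l n = true) {b : ℕ → ℕ} (hb : ∀ j, b j ≤ 1) :
    phi3 l (mkN nf b) = mkN n (fun j => b (tau3 l j)) := by
  induction l generalizing n with
  | nil =>
    simp only [wf3, decide_eq_true_eq] at h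
    rw [h]; rfl
  | cons op l ih =>
    obtain ⟨h1, h2⟩ := wf3_cases h
    unfold phi3 tau3
    rcases h2 with ⟨e, h2⟩ | ⟨e, h3, h2⟩ | ⟨e, h3, h2⟩
    · simp only [if_pos e]
      rw [ih h2, h1, mkN_mod (by omega) fun j => hb _]
    · simp only [if_neg (show ¬ op.2.1 = op.2.2 by omega), if_pos (show op.2.1 ≤ op.2.2 by omega)]
      rw [ih h2, sb_mkN e h3 fun j => hb _]
    · simp only [if_neg (show ¬ op.2.1 = op.2.2 by omega), if_neg (show ¬ op.2.1 ≤ op.2.2 by omega)]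
      rw [ih h2, h1, insI_mkN h3 fun j => hb _]

/-! grouped sums of steps -/

/-- one group: number of index bits, steps, operations on the sum -/
abbrev Grp := ℕ × List Stp × List (ℕ × ℕ × ℕ)

def tot1 (B : ℕ → ℕ → ℕ) (l : List Stp) (c : ℕ) : ℕ :=
  @List.rec Stp (fun _ => ℕ) 0 (fun s _ ih => Nat.add (st (fun c => run3 s.2.2 (B s.1 c)) (pcd s.2.1 c)) ih) l
def tot3 (B : ℕ → ℕ → ℕ) (l : List Grp) (c : ℕ) : ℕ :=
  @List.rec Grp (fun _ => ℕ) 0 (fun g _ ih => Nat.add (run3 g.2.2 (tot1 B g.2.1 c)) ih) l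

/-- all steps -/
def fl3 (gs : List Grp) : List Stp := gs.flatMap fun g => g.2.1.map fun s => (s.1, s.2.1, s.2.2 ++ g.2.2)

/-- a step is right for a permutation -/
def okS3 (n0 nf nc : ℕ) (CQ LT LF : List (Finset (Fin 7))) (s : Stp) (σ : Equiv.Perm (Fin 7)) : Bool :=
  wf3 nf s.2.2 n0 && (decide (s.2.1.length = nc) && (s.2.1.all (fun i => decide (i < nc)) &&
    ((List.range nc).all (fun j => decide (CQ.getD (s.2.1.getD j 0) ∅ = (CQ.getD j ∅).image σ)) &&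
      (List.range n0).all (fun j => decide (LF.getD (tau3 s.2.2 j) ∅ = (LT.getD j ∅).image σ)))))

theorem okS3_spec {n0 nf nc : ℕ} {CQ LT LF : List (Finset (Fin 7))} {s : Stp} {σ : Equiv.Perm (Fin 7)}
    (h : okS3 n0 nf nc CQ LT LF s σ = true) {g : Finset (Fin 7) → ℕ} (hg : ∀ Q, g Q ≤ 1) :
    wf3 nf s.2.2 n0 = true ∧ pcd s.2.1 (codeN nc CQ g) = codeN nc CQ (act σ g) ∧
      phi3 s.2.2 (codeN nf LF g) = codeN n0 LT (act σ g) := by
  simp only [okS3, Bool.and_eq_true, decide_eq_true_eq, List.all_eq_true, List.mem_range] at h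
  obtain ⟨h1, h2, h3, h4, h5⟩ := h
  refine ⟨h1, ?_, ?_⟩
  · unfold codeN
    rw [pcd_mkN (fun j => hg _) _ h3, h2]
    exact mkN_congr fun j hj => by rw [h4 j hj]; rfl
  · unfold codeN
    rw [phi3_mkN _ h1 fun j => hg _]
    exact mkN_congr fun j hj => by rw [h5 j hj]; rfl

theorem tot1_enc {n0 n1 : ℕ} {B : ℕ → ℕ → ℕ} {Bv : ℕ → ℕ → ℕ → ℕ} (hB : ∀ fl c, B fl c = enc 40 n0 (Bv fl c))
    (hlt : ∀ fl c i, i < 2 ^ n0 → Bv fl c i < 2 ^ 40) (l : List Stp) (hl : ∀ s ∈ l, wf3 n1 s.2.2 n0 = true) (c : ℕ) :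
    tot1 B l c = enc 40 n1 (fun i => (l.map fun s => Bv s.1 (pcd s.2.1 c) (phi3 s.2.2 i)).sum) := by
  induction l with
  | nil => simp [tot1, enc]
  | cons s l ih =>
    have e : tot1 B (s :: l) c = st (fun c => run3 s.2.2 (B s.1 c)) (pcd s.2.1 c) + tot1 B l c := rfl
    rw [e, st_eq, ih fun s hs => hl s (List.mem_cons_of_mem _ hs), hB, run3_enc _ (hl s List.mem_cons_self) (hlt _ _), enc_add]
    exact enc_congr fun i _ => by rw [List.map_cons, List.sum_cons]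

/-- well-formed groups -/
def wfG (n0 nf k : ℕ) (gs : List Grp) : Bool := gs.all fun g => decide (g.2.1.length ≤ k) &&
  (g.2.1.all (fun s => wf3 g.1 s.2.2 n0) && wf3 nf g.2.2 g.1)

theorem tot3_enc {n0 nf k M : ℕ} {B : ℕ → ℕ → ℕ} {Bv : ℕ → ℕ → ℕ → ℕ} (hB : ∀ fl c, B fl c = enc 40 n0 (Bv fl c))
    (hlt : ∀ fl c i, i < 2 ^ n0 → Bv fl c i ≤ M) (hM : k * M < 2 ^ 40) (hk : 0 < k) (gs : List Grp)
    (hg : wfG n0 nf k gs = true) (c : ℕ) :
    tot3 B gs c = enc 40 nf (fun i => ((fl3 gs).map fun s => Bv s.1 (pcd s.2.1 c) (phi3 s.2.2 i)).sum) := by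
  induction gs with
  | nil => simp [tot3, fl3, enc]
  | cons g gs ih =>
    have e : tot3 B (g :: gs) c = run3 g.2.2 (tot1 B g.2.1 c) + tot3 B gs c := rfl
    have hg' : (decide (g.2.1.length ≤ k) && (g.2.1.all (fun s => wf3 g.1 s.2.2 n0) && wf3 nf g.2.2 g.1)) = true
        ∧ wfG n0 nf k gs = true := by
      unfold wfG at hg
      rw [List.all_cons, Bool.and_eq_true] at hg
      exact hg
    obtain ⟨hg1, hg2⟩ := hg'
    rw [Bool.and_eq_true, Bool.and_eq_true, decide_eq_true_eq, List.all_eq_true] at hg1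
    obtain ⟨h1, h2, h3⟩ := hg1
    have hM1 : M < 2 ^ 40 := lt_of_le_of_lt (Nat.le_mul_of_pos_left M hk) hM
    rw [e, ih hg2, tot1_enc hB (fun fl c i hi => lt_of_le_of_lt (hlt fl c i hi) hM1) g.2.1 h2,
      run3_enc _ h3, enc_add]
    · refine enc_congr fun i _ => ?_
      unfold fl3
      rw [List.flatMap_cons, List.map_append, List.sum_append, List.map_map]
      congr 2
      refine List.map_congr_left fun s _ => ?_
      show _ = Bv s.1 (pcd s.2.1 c) (phi3 (s.2.2 ++ g.2.2) i)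
      rw [phi3_append]
    · intro i hi
      refine lt_of_le_of_lt ?_ hM
      have hle : ∀ l : List Stp, (∀ s ∈ l, wf3 g.1 s.2.2 n0 = true) →
          (l.map fun s => Bv s.1 (pcd s.2.1 c) (phi3 s.2.2 i)).sum ≤ l.length * M := by
        intro l
        induction l with
        | nil => intro _; simp
        | cons s l ihl =>
          intro hs
          rw [List.map_cons, List.sum_cons, List.length_cons, add_mul, one_mul, add_comm]
          exact Nat.add_le_add (ihl fun s hs' => hs s (List.mem_cons_of_mem _ hs'))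
            (hlt _ _ _ (phi3_lt _ (hs s List.mem_cons_self) hi))
      exact (hle g.2.1 h2).trans (Nat.mul_le_mul_right _ h1)

end Pool.Agent.N443
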